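import Mathlib
import Pool.Agent.H61.INS.MN
import Pool.Agent.H61.INS.LimT

/-!
`0'`-equivalent minimal numberings and their number (problem MP_711492_lc): a family of `2`-c.e.
sets with exactly two minimal computable numberings, which are moreover `0'`-equivalent.
-/

set_option autoImplicit false

open Filter

namespace Pool.Agent.Results.MP_711492_lc.TwoMinimalNumberings

/-- Level `n` of the Ershov difference hierarchy (the `n`-c.e. sets): `A` has a computable
approximation `g x s` which starts with `g x 0 = false`, converges to the characteristic function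
of `A` and changes at most `n` times on every `x`. -/
def Ershov (n : ℕ) : Set (Set ℕ) :=
  {A | ∃ g : ℕ → ℕ → Bool, Computable₂ g ∧ (∀ x, g x 0 = false) ∧
    (∀ x, ∀ᶠ s in atTop, (g x s = true ↔ x ∈ A)) ∧
    ∀ x, {s : ℕ | g x (s + 1) ≠ g x s}.encard ≤ n}

/-- The halting problem `0'`: the indices `e` of the programs which halt on the input `e`. -/
def halting : Set ℕ :=
  {e | (Nat.Partrec.Code.eval (Denumerable.ofNat Nat.Partrec.Code e) e).Dom}

open Classical in
/-- The total function `f` is computable in `0'`: computable with the characteristic function of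
the halting problem as an oracle (Mathlib's relative computability). -/
def ComputableInHalting (f : ℕ → ℕ) : Prop :=
  ComputableIn {fun e : ℕ => Part.some (if e ∈ halting then 1 else 0)} f

/-- `β ≤ α`: `β = α ∘ f` for a total computable `f`. -/
def Red (β α : ℕ → Set ℕ) : Prop := ∃ f : ℕ → ℕ, Computable f ∧ β = α ∘ f

/-- `β` is `0'`-reducible to `α`: `β = α ∘ f` for a total `f` which is computable in `0'`. -/
def Red0 (β α : ℕ → Set ℕ) : Prop := ∃ f : ℕ → ℕ, ComputableInHalting f ∧ β = α ∘ f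

/-- `α` is a numbering of the family `𝒜`. -/
def IsNumbering (𝒜 : Set (Set ℕ)) (α : ℕ → Set ℕ) : Prop := Set.range α = 𝒜

/-- `α` is `C`-computable: the set of the codes of the pairs `(x, m)` with `m ∈ α x` is in `C`. -/
def IsComputableNumbering (C : Set (Set ℕ)) (α : ℕ → Set ℕ) : Prop :=
  {k : ℕ | (Nat.unpair k).2 ∈ α (Nat.unpair k).1} ∈ C

/-- The numbering `α` of `𝒜` is minimal: it is reducible to each numbering of `𝒜` which is
reducible to it. -/
def IsMinimal (𝒜 : Set (Set ℕ)) (α : ℕ → Set ℕ) : Prop :=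
  ∀ β : ℕ → Set ℕ, IsNumbering 𝒜 β → Red β α → Red α β

/-- `α` is positive: the equality of values is a computably enumerable relation on the numbers. -/
def IsPositive (α : ℕ → Set ℕ) : Prop := REPred fun x : ℕ × ℕ => α x.1 = α x.2

/-- `α` is a `C`-computable minimal numbering of `𝒜`. -/
def Good (C 𝒜 : Set (Set ℕ)) (α : ℕ → Set ℕ) : Prop :=
  IsNumbering 𝒜 α ∧ IsComputableNumbering C α ∧ IsMinimal 𝒜 α

/-- The class of `α` for the equivalence of numberings. -/
def cls (α : ℕ → Set ℕ) : Set (ℕ → Set ℕ) := {γ | Red γ α ∧ Red α γ}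

/-! ### Proofs -/

theorem changes_iff (h : ℕ → Bool) :
    (∀ t : Fin (2 + 1) → ℕ, StrictMono t → ∃ j, h (t j + 1) = h (t j)) ↔
      {s : ℕ | h (s + 1) ≠ h s}.encard ≤ (2 : ℕ) := by
  constructor
  · intro H
    by_contra hcon
    rw [not_le] at hcon
    have h3 : ((3 : ℕ) : ℕ∞) ≤ {s : ℕ | h (s + 1) ≠ h s}.encard := by
      have := Order.add_one_le_of_lt hcon
      exact_mod_cast this
    obtain ⟨T, hT, hT3⟩ := Set.exists_subset_encard_eq h3
    have hfin : T.Finite := Set.finite_of_encard_eq_coe hT3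
    have hcard : hfin.toFinset.card = 3 := by
      have := hfin.encard_eq_coe_toFinset_card
      rw [hT3] at this
      exact_mod_cast this.symm
    obtain ⟨j, hj⟩ := H (hfin.toFinset.orderEmbOfFin hcard)
      (hfin.toFinset.orderEmbOfFin hcard).strictMono
    have hmem := hfin.toFinset.orderEmbOfFin_mem hcard j
    exact hT (hfin.mem_toFinset.1 hmem) hj
  · intro H t ht
    by_contra hcon
    push Not at hcon
    have h1 : Set.range t ⊆ {s : ℕ | h (s + 1) ≠ h s} := by
      rintro _ ⟨j, rfl⟩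
      exact hcon j
    have h2 : (Set.range t).encard = 3 := by
      rw [← Set.image_univ, ht.injective.encard_image, Set.encard_univ]
      simp
    have h3 := (Set.encard_le_encard h1).trans H
    rw [h2] at h3
    exact absurd h3 (by norm_num)

theorem ershov_two : Ershov 2 = Pool.Agent.H36.MinNum.C2 := by
  ext A
  constructor
  · rintro ⟨g, h1, h2, h3, h4⟩
    exact ⟨g, h1, h2, fun x => eventually_atTop.1 (h3 x), fun x => (changes_iff (g x)).2 (h4 x)⟩
  · rintro ⟨g, h1, h2, h3, h4⟩
    exact ⟨g, h1, h2, fun x => eventually_atTop.2 (h3 x), fun x => (changes_iff (g x)).1 (h4 x)⟩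

theorem Red.trans {α β γ : ℕ → Set ℕ} (h : Red α β) (h' : Red β γ) : Red α γ := by
  obtain ⟨f, hf, rfl⟩ := h
  obtain ⟨g, hg, rfl⟩ := h'
  exact ⟨g ∘ f, hg.comp hf, rfl⟩

theorem Red.refl (α : ℕ → Set ℕ) : Red α α := ⟨id, Computable.id, rfl⟩

theorem cls_eq {α β : ℕ → Set ℕ} (h : Red α β) (h' : Red β α) : cls α = cls β := by
  ext γ
  exact ⟨fun hγ => ⟨hγ.1.trans h, h'.trans hγ.2⟩, fun hγ => ⟨hγ.1.trans h', h.trans hγ.2⟩⟩

/-- There is a family `𝒜` of `2`-c.e. sets with two `Σ_2^{-1}`-computable minimal numberings `α`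
and `β` which are `0'`-equivalent, positive and incomparable, such that one of `α`, `β` is reducible
to each `Σ_2^{-1}`-computable numbering of `𝒜`. The `Σ_2^{-1}`-computable minimal numberings of `𝒜`
fall into exactly two classes, those of `α` and `β`. -/
theorem result : ∃ (𝒜 : Set (Set ℕ)) (α β : ℕ → Set ℕ), 𝒜 ⊆ Ershov 2 ∧
    Good (Ershov 2) 𝒜 α ∧ Good (Ershov 2) 𝒜 β ∧ IsPositive α ∧ IsPositive β ∧
    Red0 α β ∧ Red0 β α ∧ ¬ Red α β ∧ ¬ Red β α ∧
    (∀ γ : ℕ → Set ℕ, IsNumbering 𝒜 γ → IsComputableNumbering (Ershov 2) γ →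
      Red α γ ∨ Red β γ) ∧
    {c : Set (ℕ → Set ℕ) | ∃ γ, Good (Ershov 2) 𝒜 γ ∧ c = cls γ} = {cls α, cls β} ∧
    {c : Set (ℕ → Set ℕ) | ∃ γ, Good (Ershov 2) 𝒜 γ ∧ c = cls γ}.ncard = 2 := by
  obtain ⟨μ, hrange, hsub, hC2, hmin, hlim, hnr, hopp, hpos⟩ := Pool.Agent.H61.INS.main_pos
  have hgood : ∀ d, Good (Ershov 2) (Set.range (μ false)) (μ d) := by
    intro d
    refine ⟨hrange d, ?_, fun b hb hr => hmin d b (hb.trans (hrange d).symm) hr⟩
    unfold IsComputableNumbering
    rw [ershov_two]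
    exact hC2 d
  have hred0 : ∀ d, Red0 (μ (!d)) (μ d) := by
    intro d
    obtain ⟨f, ⟨g, hg, hgl⟩, hf⟩ := hlim d
    refine ⟨f, ?_, hf⟩
    unfold ComputableInHalting ComputableIn
    rw [RecursiveIn.iff_nat]
    exact Pool.Agent.H61.INS.recIn_of_lim hg hgl
  have hnr' : ¬ Red (μ false) (μ true) := fun h =>
    hnr ((hgood true).2.2 (μ false) rfl h)
  have hall : ∀ γ : ℕ → Set ℕ, IsNumbering (Set.range (μ false)) γ →
      IsComputableNumbering (Ershov 2) γ → Red (μ true) γ ∨ Red (μ false) γ := by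
    intro γ h1 h2
    unfold IsComputableNumbering at h2
    rw [ershov_two] at h2
    obtain ⟨d, hd⟩ := hopp γ h1 h2
    cases d
    · exact Or.inr hd
    · exact Or.inl hd
  have hcls : {c : Set (ℕ → Set ℕ) | ∃ γ, Good (Ershov 2) (Set.range (μ false)) γ ∧
      c = cls γ} = {cls (μ true), cls (μ false)} := by
    ext c
    constructor
    · rintro ⟨γ, hγ, rfl⟩
      rcases hall γ hγ.1 hγ.2.1 with h | h
      · exact Or.inl (cls_eq (hγ.2.2 _ (hrange true) h) h)
      · exact Or.inr (cls_eq (hγ.2.2 _ rfl h) h)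
    · rintro (rfl | rfl)
      · exact ⟨_, hgood true, rfl⟩
      · exact ⟨_, hgood false, rfl⟩
  refine ⟨Set.range (μ false), μ true, μ false, by rw [ershov_two]; exact hsub, hgood true,
    hgood false, hpos true, hpos false, hred0 false, hred0 true, hnr, hnr', hall, hcls, ?_⟩
  rw [hcls, Set.ncard_pair]
  intro h
  have h1 : μ true ∈ cls (μ true) := ⟨Red.refl _, Red.refl _⟩
  rw [h] at h1
  exact hnr h1.1

end Pool.Agent.Results.MP_711492_lc.TwoMinimalNumberings
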